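import Pool.Agent.Helper27.BI.S5.Geo5

/-!
# Project BI, stage 5, module ARC2: the levels of the second arc
-/

set_option autoImplicit false

open scoped Manifold ContDiff Topology ComplexConjugate
open Set Filter Pool.Agent.Helper65.Barb Pool.Agent.Helper18.BI
open Pool.Agent.Helper27.H

namespace Pool.Agent.Helper27.S5

/-- existence of the levels -/
theorem m_ARC2 : StARC2 := by
  intro δ κ hδ hκ
  obtain ⟨w, hw⟩ : ∃ w, w = κ ^ 2 * (1 / 25 - δ) := ⟨_, rfl⟩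
  have hκ2 : 0 < κ ^ 2 := pow_pos hκ.1 2
  have hκ3 : κ ^ 2 < 1 := pow_lt_one₀ hκ.1.le hκ.2 (by norm_num)
  have hw0 : 0 < w := by
    rw [hw]
    exact mul_pos hκ2 (by linarith [hδ.2])
  have hw1 : w < (27 / 100) ^ 2 := by
    have h1 : w ≤ 1 * (1 / 25) := by
      rw [hw]
      exact mul_le_mul hκ3.le (by linarith [hδ.1]) (by linarith [hδ.2]) (by norm_num)
    norm_num at h1 ⊢
    linarith
  have hc : IsCompact {s : ℝ | s ∈ Icc (1 / 10 : ℝ) (3 / 10) ∧ bfin s ^ 2 ≤ w} :=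
    isCompact_Icc.inter_right (isClosed_le (contDiff_bfin.continuous.pow 2) continuous_const)
  have hne : {s : ℝ | s ∈ Icc (1 / 10 : ℝ) (3 / 10) ∧ bfin s ^ 2 ≤ w}.Nonempty := by
    refine ⟨1 / 10, ⟨le_rfl, by norm_num⟩, ?_⟩
    rw [bfin_out (Or.inl le_rfl)]
    linarith
  obtain ⟨s₀, ⟨hs₀, hb₀⟩, hmax⟩ := hc.exists_isGreatest hne
  have hmid : ∀ s ∈ Icc (3 / 10 : ℝ) (7 / 10), w < bfin s ^ 2 := by
    intro s hs
    rw [bfin_mid hs]
    exact hw1
  have hgt : ∀ s, s₀ < s → s ≤ 7 / 10 → w < bfin s ^ 2 := by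
    intro s h1 h2
    rcases le_or_gt s (3 / 10) with h3 | h3
    · by_contra h4
      push Not at h4
      exact absurd (hmax ⟨⟨hs₀.1.trans h1.le, h3⟩, h4⟩) (not_le.2 h1)
    · exact hmid s ⟨h3.le, h2⟩
  have hs3 : s₀ ≠ 3 / 10 := by
    rintro rfl
    exact absurd hb₀ (not_le.2 (hmid _ ⟨le_rfl, by norm_num⟩))
  have hs3' : s₀ < 3 / 10 := lt_of_le_of_ne hs₀.2 hs3
  have heq : bfin s₀ ^ 2 = w := by
    apply le_antisymm hb₀
    have h1 : Tendsto (fun s => bfin s ^ 2) (𝓝[>] s₀) (𝓝 (bfin s₀ ^ 2)) :=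
      ((contDiff_bfin.continuous.pow 2).tendsto s₀).mono_left nhdsWithin_le_nhds
    apply ge_of_tendsto h1
    filter_upwards [Ioo_mem_nhdsGT hs3'] with s hs
    exact (hgt s hs.1 (by linarith [hs.2])).le
  have hs1 : 1 / 10 < s₀ := by
    rcases hs₀.1.lt_or_eq with h | h
    · exact h
    · rw [← h, bfin_out (Or.inl le_rfl)] at heq
      linarith
  have hlow : ∀ s ≤ s₀, bfin s ^ 2 ≤ w := by
    intro s hs
    rw [← heq]
    have := bfin_mono hs (by linarith)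
    have h0 := bfin_nonneg s
    nlinarith
  refine ⟨s₀, 1 - s₀, ⟨⟨hs1, hs3'⟩, ⟨by linarith, by linarith⟩, by rw [heq, hw],
    by rw [bfin_symm, heq, hw], ?_, ?_⟩⟩
  · rintro s ⟨h1, h2⟩
    rw [← hw]
    rcases le_or_gt s (7 / 10) with h3 | h3
    · exact hgt s h1 h3
    · rw [← bfin_symm]
      exact hgt _ (by linarith) (by linarith)
  · intro s hs
    rw [← hw]
    rcases le_or_gt s s₀ with h | h
    · exact hlow s h
    · have h2 : 1 - s₀ ≤ s := by
        by_contra h3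
        push Not at h3
        exact hs ⟨h, h3⟩
      rw [← bfin_symm]
      exact hlow _ (by linarith)

end Pool.Agent.Helper27.S5
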