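import Pool.Agent.Helper27.BI.S5.St5
import Pool.Agent.Helper27.BI.H.Calc
import Pool.Agent.Helper27.BI.H.Hat

/-!
# Project BI, stage 5, module SPL: splitting a loop of pairs of arcs
-/

set_option autoImplicit false

open scoped Manifold ContDiff Topology ComplexConjugate
open Set Filter Pool.Agent.Helper65.Barb Pool.Agent.Helper18.BI
open Pool.Agent.Helper70.BI (I4 LD NearEq IsW)
open Pool.Agent.Helper27.H

namespace Pool.Agent.Helper27.S5

namespace SPL

open Pool.Agent.Helper70.BI (ld_iff ld_comp)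

theorem cd_f (F : DFam 𝓘(ℝ, R4) R4) : ContDiff ℝ ∞ F.f := by
  have h := F.smooth_f
  rw [← contMDiff_iff_contDiff, modelWithCornersSelf_prod, ← chartedSpaceSelf_prod]
  exact h

theorem cd_f' (F : DFam 𝓘(ℝ, R4) R4) (t : ℝ) : ContDiff ℝ ∞ (fun x => F.f (t, x)) :=
  (cd_f F).comp (contDiff_const.prodMk contDiff_id)

theorem ld_f (F : DFam 𝓘(ℝ, R4) R4) (t : ℝ) (x : R4) : LD (fun x => F.f (t, x)) x := by
  rw [ld_iff]
  refine ⟨Filter.Eventually.of_forall fun y => (cd_f' F t).contDiffAt, ?_⟩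
  have h1 : (fun y => F.g (t, y)) ∘ (fun y => F.f (t, y)) = id := funext fun y => F.gf t y
  have h2 : fderiv ℝ ((fun y => F.g (t, y)) ∘ (fun y => F.f (t, y))) x =
      (fderiv ℝ (fun y => F.g (t, y)) (F.f (t, x))).comp (fderiv ℝ (fun y => F.f (t, y)) x) :=
    fderiv_comp x ((cd_f' F.inv t).contDiffAt.differentiableAt (by simp))
      ((cd_f' F t).contDiffAt.differentiableAt (by simp))
  rw [h1, fderiv_id] at h2
  intro v w hvw
  have h3 := congrArg (fun L : R4 →L[ℝ] R4 => L v) h2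
  have h4 := congrArg (fun L : R4 →L[ℝ] R4 => L w) h2
  simp only [ContinuousLinearMap.comp_apply, ContinuousLinearMap.id_apply] at h3 h4
  rw [h3, h4]
  exact congrArg _ hvw

theorem mem_supp {F : DFam 𝓘(ℝ, R4) R4} {K : Set R4} (h : ∀ t x, x ∉ K → F.f (t, x) = x)
    (t : ℝ) {x : R4} (hx : x ∈ K) : F.f (t, x) ∈ K := by
  by_contra hc
  have h1 := h t _ hc
  have h2 : F.f (t, x) = x := by
    have h3 := congrArg (fun y => F.g (t, y)) h1
    simp only [F.gf] at h3
    exact h3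
  rw [h2] at hc
  exact hc hx

theorem ld_continuousAt {J : R4 → R4} {p : R4} (h : LD J p) : ContinuousAt J p :=
  (ld_iff.1 h).1.self_of_nhds.continuousAt

end SPL

open SPL in
/-- splitting a loop of pairs of arcs -/
theorem m_SPL (hCh : StCH4) : StSPL := by
  intro U C₁ C₂ J F hU hC1 hC2 hJ hJC2 hF0 hFs hF
  obtain ⟨K, hK, hKU, hFK⟩ := hFs
  have hU1 : IsOpen (U \ J '' C₂) := hU.sdiff hJC2.isClosed
  have hfam : Fam2 Q2 C₁ (interior {p | J p ∉ K}) (U \ J '' C₂)
      (fun a => (fun q p => F.f (q, J p)) a.2) := by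
    refine ⟨fun a ha p hp => ?_, fun a ha => ⟨fun p hp => ?_, ?_⟩, fun a ha b hb p hp => ?_,
      fun a ha p hp hpV => ?_⟩
    · have h1 := (Pool.Agent.Helper70.BI.ld_iff.1 (hJ.1 p hp)).1
      have h2 : ContinuousAt (fun z : (ℝ × ℝ) × R4 => z.2) (a, p) := continuous_snd.continuousAt
      filter_upwards [h2.eventually h1] with z hz
      have h3 : ContDiffAt ℝ ∞ (fun z : (ℝ × ℝ) × R4 => J z.2) z :=
        ContDiffAt.comp (g := J) (f := fun z : (ℝ × ℝ) × R4 => z.2) z hz contDiff_snd.contDiffAt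
      have h4 : ContDiffAt ℝ ∞ (fun z : (ℝ × ℝ) × R4 => z.1.2) z :=
        (contDiff_snd.comp contDiff_fst).contDiffAt
      exact ContDiffAt.comp (g := F.f) (f := fun z : (ℝ × ℝ) × R4 => (z.1.2, J z.2)) z
        (cd_f F).contDiffAt (h4.prodMk h3)
    · exact Pool.Agent.Helper70.BI.ld_comp (hJ.1 p hp) (ld_f F a.2 (J p))
    · intro p hp q hq h
      refine hJ.2 hp hq ?_
      have h3 := congrArg (fun y => F.g (a.2, y)) h
      simp only [F.gf] at h3
      exact h3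
    · have h1 : J p ∉ K := interior_subset hp
      show F.f (a.2, J p) = F.f (b.2, J p)
      rw [hFK _ _ h1, hFK _ _ h1]
    · have hJK : J p ∈ K := by
        by_contra hc
        refine hpV (mem_interior_iff_mem_nhds.2 ?_)
        exact (ld_continuousAt (hJ.1 p hp)) (hK.isClosed.isOpen_compl.mem_nhds hc)
      exact ⟨hKU (mem_supp hFK _ hJK), hF a.2 ha.2 p hp⟩
  obtain ⟨Θ, A₀, hA0, -, hAs, N, hN, hCN, hAN⟩ :=
    exists_lpush1 (J := fun q p => F.f (q, J p)) hCh hC1 isOpen_interior hU1 hfam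
  obtain ⟨O, hO, hCO, hJO, -⟩ := emb_open hC1 hJ
  have hst : ∀ t, step t ∈ Icc (0 : ℝ) 1 := step_mem
  have hstep0 : step 0 = 0 := Pool.Agent.Helper27.BI.step_zero
  obtain ⟨KA, hKA, hKAU, hKAs⟩ := hAs
  have hAJ : ∀ t, ∀ p ∈ N, A₀.f (step t, J p) = F.f (step (step t), J p) := by
    intro t p hp
    have h1 := hAN (step t) (hst t) p hp
    simp only [hF0] at h1
    exact h1
  -- an open neighbourhood of the first arc
  have hOpen : IsOpen (J '' (N ∩ O)) := by
    rw [isOpen_iff_mem_nhds]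
    rintro _ ⟨p, hp, rfl⟩
    obtain ⟨Φ, hΦp, hΦ⟩ := hJO.1 p hp.2
    have h1 : IsOpen (Φ '' (Φ.source ∩ (N ∩ O))) := by
      have := Φ.toOpenPartialHomeomorph.isOpen_image_source_inter (hN.inter hO)
      exact this
    refine Filter.mem_of_superset (h1.mem_nhds ⟨p, ⟨hΦp, hp⟩, (hΦ hΦp).symm⟩) ?_
    rintro _ ⟨q, hq, rfl⟩
    exact ⟨q, hq.2, hΦ hq.1⟩
  have hsτ : ContDiff ℝ ∞ (fun t => step (step t)) := contDiff_step.comp contDiff_step
  refine ⟨A₀.reparam step contDiff_step,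
    ((A₀.reparam step contDiff_step).inv).comp (F.reparam (fun t => step (step t)) hsτ),
    fun x => ?_, fun x => ?_, ⟨KA, hKA, hKAU, fun t x hx => hKAs _ x hx⟩,
    ⟨(K ∪ KA) \ J '' (N ∩ O), (hK.union hKA).diff hOpen, ?_, ?_⟩,
    ⟨N, hN, hCN, fun t p hp => hAJ t p hp⟩, fun t x => ?_⟩
  · change A₀.f (step 0, x) = x
    rw [hstep0, hA0]
  · change A₀.g (step 0, F.f (step (step 0), x)) = x
    rw [hstep0, hstep0, hF0]
    have h1 := A₀.gf 0 x
    rw [hA0] at h1
    exact h1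
  · rintro x ⟨hx, hx2⟩
    refine ⟨?_, fun hc => hx2 ?_⟩
    · rcases hx with hx | hx
      · exact hKU hx
      · exact (hKAU hx).1
    · obtain ⟨p, hp, rfl⟩ := hc
      exact ⟨p, ⟨hCN hp, hCO hp⟩, rfl⟩
  · intro t x hx
    change A₀.g (step t, F.f (step (step t), x)) = x
    by_cases hxO : x ∈ J '' (N ∩ O)
    · obtain ⟨p, hp, rfl⟩ := hxO
      rw [← hAJ t p hp.1, A₀.gf]
    · have hx1 : x ∉ K ∪ KA := fun hc => hx ⟨hc, hxO⟩
      have hx2 : x ∉ K := fun hc => hx1 (Or.inl hc)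
      have hx3 : x ∉ KA := fun hc => hx1 (Or.inr hc)
      rw [hFK _ _ hx2]
      have h1 := A₀.gf (step t) x
      rw [hKAs _ _ hx3] at h1
      exact h1
  · change A₀.f (step t, A₀.g (step t, F.f (step (step t), x))) = _
    rw [A₀.fg]

end Pool.Agent.Helper27.S5
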